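import Mathlib

/-!
# MP_61df98_mp: for `q = 15` the antisymmetric Floquet isospectral variety has a nonzero
singular point
-/

set_option autoImplicit false

open Matrix Polynomial

namespace Pool.Agent.Results.MP_61df98_mp.SingularFifteen

/-! ## Definitions -/

/-- The Floquet matrix `L_V` at quasimomentum `1` (for `q ≥ 3`): `V` on the diagonal, `1` at cyclic
neighbours. -/
def floquet {R : Type*} [CommRing R] (q : ℕ) (V : Fin q → R) : Matrix (Fin q) (Fin q) R :=
  Matrix.of fun j k => (if j = k then V j else 0) +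
    (if (k : ℕ) = (j + 1) % q ∨ (j : ℕ) = (k + 1) % q then 1 else 0)

/-- `D_V(λ) = det (L_V - λ I)`, a polynomial in `λ`. -/
noncomputable def D {R : Type*} [CommRing R] (q : ℕ) (V : Fin q → R) : Polynomial R :=
  ((floquet q V).map Polynomial.C - Matrix.diagonal fun _ => Polynomial.X).det

/-- The generic antisymmetric potential. -/
noncomputable def U (q : ℕ) (j : Fin q) : MvPolynomial (Fin (q / 2)) ℂ :=
  if h : (j : ℕ) < q / 2 then MvPolynomial.X ⟨j, h⟩
  else if h : q - 1 - (j : ℕ) < q / 2 then - MvPolynomial.X ⟨q - 1 - j, h⟩ else 0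

/-- The polynomial `p'_k = (-1)^(q+k) [λ^(q-2k)] (D_U - D_0)`. -/
noncomputable def p (q k : ℕ) : MvPolynomial (Fin (q / 2)) ℂ :=
  (-1) ^ (q + k) * (D q (U q) - D q 0).coeff (q - 2 * k)

/-- The ideal `I'`. -/
noncomputable def I (q : ℕ) : Ideal (MvPolynomial (Fin (q / 2)) ℂ) :=
  Ideal.span {f | ∃ k : ℕ, 1 ≤ k ∧ k ≤ q / 2 ∧ f = p q k}

/-- The common zero set `V(I')`. -/
def zeros (q : ℕ) : Set (Fin (q / 2) → ℂ) := {a | ∀ f ∈ I q, MvPolynomial.eval a f = 0}

/-- The polynomials which do not vanish at `a`. -/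
def nonvanishing {n : ℕ} (a : Fin n → ℂ) : Submonoid (MvPolynomial (Fin n) ℂ) where
  carrier := {g | MvPolynomial.eval a g ≠ 0}
  one_mem' := by simp
  mul_mem' := by
    intro f g hf hg
    simp only [Set.mem_ofPred_eq, map_mul] at *
    exact mul_ne_zero hf hg

/-- The local ring of `ℂ[u] / I'` at the point `a`. -/
abbrev LocalRing (q : ℕ) (a : Fin (q / 2) → ℂ) : Type :=
  Localization ((nonvanishing a).map (Ideal.Quotient.mk (I q)))

/-- The point `a` is regular: its multiplicity, the complex dimension of the local ring, is one. -/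
def Regular (q : ℕ) (a : Fin (q / 2) → ℂ) : Prop := Module.rank ℂ (LocalRing q a) = 1

/-! ## Determinants -/

lemma det_dual {n : Type*} [Fintype n] [DecidableEq n] {R : Type*} [CommRing R]
    (A : Matrix n n R) (e : R) (he : e * e = 0) (W : n → R) :
    (A + Matrix.diagonal fun j => e * W j).det = A.det + e * ∑ j, W j * A.adjugate j j := by
  have key : ∀ s : Finset n, (A + Matrix.diagonal fun j => if j ∈ s then e * W j else 0).det =
      A.det + e * ∑ j ∈ s, W j * A.adjugate j j := by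
    intro s
    induction s using Finset.induction_on with
    | empty => simp
    | insert j s hj ih =>
      obtain ⟨B, hB⟩ : ∃ B : Matrix n n R,
        B = A + Matrix.diagonal fun j => if j ∈ s then e * W j else 0 := ⟨_, rfl⟩
      have h1 : (A + Matrix.diagonal fun i => if i ∈ insert j s then e * W i else 0) =
          B.updateRow j (B j + (e * W j) • Pi.single j 1) := by
        ext i k
        by_cases hij : i = j
        · subst hij
          rw [Matrix.updateRow_self, hB]
          by_cases hik : i = k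
          · subst hik
            simp [hj]
          · simp [Matrix.diagonal_apply_ne _ hik, Ne.symm hik]
        · rw [Matrix.updateRow_ne hij, hB]
          by_cases hik : i = k
          · subst hik
            simp [hij]
          · simp [Matrix.diagonal_apply_ne _ hik]
      rw [h1, Matrix.det_updateRow_add, Matrix.updateRow_eq_self, Matrix.det_updateRow_smul,
        ← Matrix.adjugate_apply, hB, ih, Finset.sum_insert hj, ← hB]
      have h2 : e * B.adjugate j j = e * A.adjugate j j := by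
        let J : Ideal R := (Submodule.span R {e}).annihilator
        have hmem : ∀ x : R, x ∈ J ↔ x * e = 0 := by
          intro x
          rw [Submodule.mem_annihilator_span_singleton, smul_eq_mul]
        have h3 : B.map (Ideal.Quotient.mk J) = A.map (Ideal.Quotient.mk J) := by
          ext i k
          rw [Matrix.map_apply, Matrix.map_apply, Ideal.Quotient.eq, hmem, hB]
          by_cases hik : i = k
          · subst hik
            simp only [Matrix.add_apply, Matrix.diagonal_apply_eq, add_sub_cancel_left]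
            split_ifs
            · linear_combination (W i) * he
            · ring
          · simp [Matrix.diagonal_apply_ne _ hik]
        have h4 : Ideal.Quotient.mk J (B.adjugate j j) = Ideal.Quotient.mk J (A.adjugate j j) := by
          have h5 := RingHom.map_adjugate (Ideal.Quotient.mk J) B
          have h6 := RingHom.map_adjugate (Ideal.Quotient.mk J) A
          have h7 := congrFun (congrFun h5 j) j
          have h8 := congrFun (congrFun h6 j) j
          simp only [RingHom.mapMatrix_apply] at h7 h8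
          rw [h3] at h7
          rw [← h8] at h7
          exact h7
        rw [Ideal.Quotient.eq, hmem] at h4
        linear_combination h4
      linear_combination (W j) * h2
  have := key Finset.univ
  simpa using this

/-- The potential of period five. -/
def five {R : Type*} [CommRing R] (a b : R) : Fin 5 → R := ![a, b, 0, -b, -a]

/-- The block. -/
noncomputable def blk {R : Type*} [CommRing R] (x : Fin 5 → R) : Matrix (Fin 5) (Fin 5) R :=
  Matrix.of fun j k => (if j = k then x j else 0) +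
    (if (k : ℕ) = j + 1 ∨ (j : ℕ) = k + 1 then 1 else 0)

lemma blk_eq {R : Type*} [CommRing R] (x : Fin 5 → R) (z w : R) :
    blk x + (z • Matrix.single 4 0 1 + w • Matrix.single 0 4 1) =
    !![x 0, 1, 0, 0, w; 1, x 1, 1, 0, 0; 0, 1, x 2, 1, 0; 0, 0, 1, x 3, 1; z, 0, 0, 1, x 4] := by
  ext i j
  fin_cases i <;> fin_cases j <;> simp [blk]

lemma det_five {R : Type*} [CommRing R] (x0 x1 x2 x3 x4 z w : R) :
    (!![x0, 1, 0, 0, w; 1, x1, 1, 0, 0; 0, 1, x2, 1, 0; 0, 0, 1, x3, 1; z, 0, 0, 1, x4] :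
      Matrix (Fin 5) (Fin 5) R).det =
    x0 * x1 * x2 * x3 * x4 - (x2 * x3 * x4 + x0 * x3 * x4 + x0 * x1 * x4 + x0 * x1 * x2) +
      (x4 + x2 + x0) - z * w * (x1 * x2 * x3 - x3 - x1) + (z + w) := by
  simp [Matrix.det_succ_row_zero, Fin.sum_univ_succ, Fin.succAbove]
  ring

lemma det_blk_eq {R : Type*} [CommRing R] (a b l z w : R) (hzw : z * w = 1)
    (h1 : a ^ 2 + b ^ 2 = 0) (h2 : a ^ 2 * b ^ 2 + 2 * a ^ 2 + b ^ 2 - 2 * a * b = 0) :
    (blk (fun j => five a b j - l) + (z • Matrix.single 4 0 1 + w • Matrix.single 0 4 1)).det =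
      (blk (fun _ => - l) + (z • Matrix.single 4 0 1 + w • Matrix.single 0 4 1)).det := by
  rw [blk_eq, blk_eq, det_five, det_five]
  simp only [five, Matrix.cons_val]
  linear_combination (l ^ 3) * h1 - l * h2 - b ^ 2 * l * hzw

/-- The cyclic shift of length three. -/
def cyc {R : Type*} [CommRing R] : Matrix (Fin 3) (Fin 3) R :=
  !![0, 1, 0; 0, 0, 1; 1, 0, 0]

open scoped Kronecker

lemma kron_det {R : Type*} [CommRing R] [IsDomain R] (ω : R) (hω : ω ^ 2 + ω + 1 = 0)
    (h3 : (3 : R) ≠ 0) (T E E' : Matrix (Fin 5) (Fin 5) R) :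
    ((1 : Matrix (Fin 3) (Fin 3) R) ⊗ₖ T + cyc ⊗ₖ E + cycᵀ ⊗ₖ E').det =
      ∏ j : Fin 3, (T + (ω ^ (j : ℕ) • E + ω ^ (2 * (j : ℕ)) • E')).det := by
  have hω3 : ω ^ 3 = 1 := by linear_combination (ω - 1) * hω
  obtain ⟨F, hF⟩ : ∃ F : Matrix (Fin 3) (Fin 3) R,
    F = !![1, 1, 1; 1, ω, ω ^ 2; 1, ω ^ 2, ω] := ⟨_, rfl⟩
  obtain ⟨G, hG⟩ : ∃ G : Matrix (Fin 3) (Fin 3) R,
    G = !![1, 1, 1; 1, ω ^ 2, ω; 1, ω, ω ^ 2] := ⟨_, rfl⟩
  have hFG : F * G = (3 : R) • (1 : Matrix (Fin 3) (Fin 3) R) := by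
    rw [hF, hG]
    ext i j
    fin_cases i <;> fin_cases j <;>
      simp [Matrix.mul_apply, Fin.sum_univ_succ] <;> try ring1
    · linear_combination hω
    · linear_combination hω
    · linear_combination hω
    · linear_combination 2 * hω3
    · linear_combination (ω ^ 2 - ω + 1) * hω
    · linear_combination hω
    · linear_combination (ω ^ 2 - ω + 1) * hω
    · linear_combination 2 * hω3
  have hdetF : F.det ≠ 0 := by
    intro h
    have h1 := congrArg Matrix.det hFG
    rw [Matrix.det_mul, h, zero_mul, Matrix.det_smul, Matrix.det_one, mul_one] at h1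
    exact pow_ne_zero _ h3 h1.symm
  have hC : (cyc : Matrix (Fin 3) (Fin 3) R) * F =
      F * Matrix.diagonal fun j : Fin 3 => ω ^ (j : ℕ) := by
    rw [hF]
    ext i j
    fin_cases i <;> fin_cases j <;>
      simp [cyc, Matrix.mul_apply, Fin.sum_univ_three, Matrix.diagonal] <;> try ring1
    · linear_combination (-ω) * hω3
    · linear_combination (-1 : R) * hω3
    · linear_combination (-1 : R) * hω3
  have hC' : (cyc : Matrix (Fin 3) (Fin 3) R)ᵀ * F =
      F * Matrix.diagonal fun j : Fin 3 => ω ^ (2 * (j : ℕ)) := by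
    rw [hF]
    ext i j
    fin_cases i <;> fin_cases j <;>
      simp [cyc, Matrix.mul_apply, Fin.sum_univ_three, Matrix.diagonal] <;> try ring1
    · linear_combination (-ω) * hω3
    · linear_combination (-1 : R) * hω3
    · linear_combination (-(ω ^ 3 + 1)) * hω3
    · linear_combination (-ω) * hω3
    · linear_combination (-ω ^ 2) * hω3
  have h1 : ((1 : Matrix (Fin 3) (Fin 3) R) ⊗ₖ T + cyc ⊗ₖ E + cycᵀ ⊗ₖ E') *
      (F ⊗ₖ (1 : Matrix (Fin 5) (Fin 5) R)) = (F ⊗ₖ (1 : Matrix (Fin 5) (Fin 5) R)) *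
      ((Matrix.diagonal fun _ => (1 : R)) ⊗ₖ T + (Matrix.diagonal fun j : Fin 3 => ω ^ (j : ℕ)) ⊗ₖ E
        + (Matrix.diagonal fun j : Fin 3 => ω ^ (2 * (j : ℕ))) ⊗ₖ E') := by
    rw [add_mul, add_mul, mul_add, mul_add, ← Matrix.mul_kronecker_mul,
      ← Matrix.mul_kronecker_mul, ← Matrix.mul_kronecker_mul, ← Matrix.mul_kronecker_mul,
      ← Matrix.mul_kronecker_mul, ← Matrix.mul_kronecker_mul, hC, hC', mul_one, mul_one, mul_one,
      one_mul, one_mul, one_mul, one_mul, Matrix.diagonal_one, mul_one]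
  have h2 := congrArg Matrix.det h1
  rw [Matrix.det_mul, Matrix.det_mul, mul_comm] at h2
  have h3 : (F ⊗ₖ (1 : Matrix (Fin 5) (Fin 5) R)).det ≠ 0 := by
    rw [Matrix.det_kronecker]
    exact mul_ne_zero (pow_ne_zero _ hdetF) (by simp)
  have h4 := mul_left_cancel₀ h3 h2
  rw [h4, ← Matrix.det_blockDiagonal, ← Matrix.det_submatrix_equiv_self (Equiv.prodComm _ _)]
  congr 1
  ext ⟨b, a⟩ ⟨b', a'⟩
  by_cases h : a = a'
  · subst h
    simp [Matrix.blockDiagonal_apply, add_assoc]
  · simp [Matrix.blockDiagonal_apply, h]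

/-- The reindexing of the fifteen indices. -/
def ee : Fin 3 × Fin 5 ≃ Fin 15 := finProdFinEquiv

/-- The cyclic shift with natural entries. -/
def cycN : Matrix (Fin 3) (Fin 3) ℕ := !![0, 1, 0; 0, 0, 1; 1, 0, 0]

lemma cycN_cast {R : Type*} [CommRing R] (a b : Fin 3) : (cyc a b : R) = (cycN a b : ℕ) := by
  fin_cases a <;> fin_cases b <;> simp [cyc, cycN]

lemma adj_dec : ∀ (a a' : Fin 3) (b b' : Fin 5),
    (if ((ee (a', b') : Fin 15) : ℕ) = (ee (a, b) + 1) % 15 ∨
      ((ee (a, b) : Fin 15) : ℕ) = (ee (a', b') + 1) % 15 then 1 else 0 : ℕ) =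
    (if a = a' then 1 else 0) * (if (b' : ℕ) = b + 1 ∨ (b : ℕ) = b' + 1 then 1 else 0) +
      cycN a a' * (if 4 = b ∧ 0 = b' then 1 else 0) +
      cycN a' a * (if 0 = b ∧ 4 = b' then 1 else 0) := by
  decide

lemma floquet_ee {R : Type*} [CommRing R] (V : Fin 15 → R) (x : Fin 5 → R)
    (hV : ∀ a b, V (ee (a, b)) = x b) :
    (floquet 15 V).submatrix ee ee = (1 : Matrix (Fin 3) (Fin 3) R) ⊗ₖ blk x +
      cyc ⊗ₖ Matrix.single 4 0 1 + cycᵀ ⊗ₖ Matrix.single 0 4 1 := by
  ext ⟨a, b⟩ ⟨a', b'⟩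
  have h1 := congrArg (Nat.cast : ℕ → R) (adj_dec a a' b b')
  push_cast at h1
  simp only [Matrix.submatrix_apply, floquet, Matrix.of_apply, Matrix.add_apply,
    Matrix.kronecker_apply, Matrix.transpose_apply, blk, Matrix.single_apply, Matrix.one_apply,
    cycN_cast, hV]
  have h2 : (ee (a, b) = ee (a', b')) ↔ (a = a' ∧ b = b') := by
    rw [ee.injective.eq_iff, Prod.mk.injEq]
  simp only [h2]
  rw [h1]
  by_cases ha : a = a'
  · simp only [ha, true_and, if_true]
    ring
  · simp only [ha, false_and, if_false]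
    ring

lemma D_eq {R : Type*} [CommRing R] (q : ℕ) (V : Fin q → R) :
    D q V = (floquet q fun j => Polynomial.C (V j) - Polynomial.X).det := by
  unfold D
  congr 1
  ext1 j k
  simp only [floquet, Matrix.sub_apply, Matrix.map_apply, Matrix.of_apply, Matrix.diagonal_apply]
  by_cases h : j = k
  · simp only [h, if_true]
    split_ifs <;> simp <;> ring
  · simp only [h, if_false]
    split_ifs <;> simp

lemma D_map {R S : Type*} [CommRing R] [CommRing S] (f : R →+* S) (q : ℕ) (V : Fin q → R) :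
    (D q V).map f = D q fun j => f (V j) := by
  rw [D_eq, D_eq, ← Polynomial.coe_mapRingHom, RingHom.map_det]
  congr 1
  ext1 j k
  simp only [floquet, RingHom.mapMatrix_apply, Matrix.map_apply, Matrix.of_apply]
  split_ifs <;> simp

/-- The potential of period five and length fifteen. -/
def VV (a b : ℂ) (j : Fin 15) : ℂ := five a b (ee.symm j).2

lemma D_VV {a b : ℂ} (h1 : a ^ 2 + b ^ 2 = 0)
    (h2 : a ^ 2 * b ^ 2 + 2 * a ^ 2 + b ^ 2 - 2 * a * b = 0) : D 15 (VV a b) = D 15 0 := by
  obtain ⟨ω, hω⟩ : ∃ ω : ℂ, ω ^ 2 + ω + 1 = 0 := by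
    obtain ⟨s, hs⟩ := IsAlgClosed.exists_pow_nat_eq (-3 : ℂ) (n := 2) (by norm_num)
    refine ⟨(-1 + s) / 2, ?_⟩
    linear_combination (1 / 4 : ℂ) * hs
  have hω' : (Polynomial.C ω) ^ 2 + Polynomial.C ω + 1 = 0 := by
    have := congrArg Polynomial.C hω
    simpa using this
  have h3 : (3 : Polynomial ℂ) ≠ 0 := by norm_num
  have key : ∀ (V : Fin 15 → ℂ) (x : Fin 5 → ℂ), (∀ a b, V (ee (a, b)) = x b) → D 15 V =
      ∏ j : Fin 3, (blk (fun j => Polynomial.C (x j) - Polynomial.X) +
        ((Polynomial.C ω) ^ (j : ℕ) • Matrix.single 4 0 1 +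
          (Polynomial.C ω) ^ (2 * (j : ℕ)) • Matrix.single 0 4 1)).det := by
    intro V x hV
    rw [D_eq, ← Matrix.det_submatrix_equiv_self ee,
      floquet_ee _ (fun j => Polynomial.C (x j) - Polynomial.X) (fun a b => by rw [hV]),
      kron_det _ hω' h3]
  rw [key (VV a b) (five a b) (fun a b => by simp [VV]), key 0 0 (fun _ _ => rfl)]
  refine Finset.prod_congr rfl fun j _ => ?_
  have e1 : (fun j => Polynomial.C (five a b j) - Polynomial.X) =
      fun j => five (Polynomial.C a) (Polynomial.C b) j - Polynomial.X := by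
    funext j
    congr 1
    fin_cases j <;> simp [five]
  have e2 : (fun j : Fin 5 => Polynomial.C ((0 : Fin 5 → ℂ) j) - Polynomial.X) =
      fun _ => - Polynomial.X := by
    funext j
    simp
  rw [e1, e2]
  apply det_blk_eq
  · rw [← pow_add]
    have h4 : (Polynomial.C ω) ^ 3 = 1 := by linear_combination (Polynomial.C ω - 1) * hω'
    have h5 : (j : ℕ) + 2 * j = 3 * j := by ring
    rw [h5, pow_mul, h4, one_pow]
  · have := congrArg Polynomial.C h1
    simpa using this
  · have := congrArg Polynomial.C h2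
    simpa only [map_add, map_sub, map_mul, map_pow, map_ofNat, map_zero] using this

/-- The tangent direction. -/
def WW : Fin 15 → ℂ := ![1, 0, 0, 0, 0, -1, 0, 0, 0, 1, 0, 0, 0, 0, -1]

/-- The shift by five. -/
def sh : Fin 15 ≃ Fin 15 := Equiv.addRight 5

lemma sh_adj : ∀ j k : Fin 15, (((sh k : Fin 15) : ℕ) = (sh j + 1) % 15 ∨
    ((sh j : Fin 15) : ℕ) = (sh k + 1) % 15) ↔ ((k : ℕ) = (j + 1) % 15 ∨ (j : ℕ) = (k + 1) % 15) := by
  decide

lemma floquet_sh {R : Type*} [CommRing R] (y : Fin 15 → R) (hy : ∀ j, y (sh j) = y j) :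
    (floquet 15 y).submatrix sh sh = floquet 15 y := by
  ext j k
  simp only [Matrix.submatrix_apply, floquet, Matrix.of_apply, hy, sh_adj,
    sh.injective.eq_iff]

lemma VV_sh (a b : ℂ) : ∀ j, VV a b (sh j) = VV a b j := by
  intro j
  fin_cases j <;> rfl

lemma sh_zero : sh 0 = 5 := by decide

lemma sh_nine : sh 9 = 14 := by decide

lemma sum_WW {R : Type*} [CommRing R] (f : ℂ →+* R) (g : Fin 15 → R)
    (hg : ∀ j, g (sh j) = g j) : ∑ j, f (WW j) * g j = 0 := by
  have h0 := hg 0
  have h9 := hg 9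
  rw [sh_zero] at h0
  rw [sh_nine] at h9
  simp [Fin.sum_univ_succ, WW]
  linear_combination (-1 : R) * h0 - (1 : R) * h9

lemma floquet_add {R : Type*} [CommRing R] (q : ℕ) (y w : Fin q → R) :
    (floquet q fun j => y j + w j) = floquet q y + Matrix.diagonal w := by
  ext1 j k
  simp only [floquet, Matrix.of_apply, Matrix.add_apply, Matrix.diagonal_apply]
  by_cases h : j = k
  · simp only [h, if_true]
    ring
  · simp only [h, if_false]
    ring

lemma det_first {R : Type*} [CommRing R] (f : ℂ →+* R) (e : R) (he : e * e = 0)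
    (y : Fin 15 → R) (hy : ∀ j, y (sh j) = y j) :
    (floquet 15 fun j => y j + e * f (WW j)).det = (floquet 15 y).det := by
  rw [floquet_add, det_dual _ _ he, sum_WW, mul_zero, add_zero]
  intro j
  have h4 := Matrix.adjugate_submatrix_equiv_self sh (floquet 15 y)
  rw [floquet_sh y hy] at h4
  have h5 := congrFun (congrFun h4 j) j
  rw [Matrix.submatrix_apply] at h5
  exact h5.symm

lemma D_dual {a b : ℂ} (h1 : a ^ 2 + b ^ 2 = 0)
    (h2 : a ^ 2 * b ^ 2 + 2 * a ^ 2 + b ^ 2 - 2 * a * b = 0) {R : Type*} [CommRing R]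
    (f : ℂ →+* R) (e : R) (he : e * e = 0) :
    D 15 (fun j => f (VV a b j) + f (WW j) * e) = D 15 0 := by
  have he' : Polynomial.C e * Polynomial.C e = 0 := by
    rw [← Polynomial.C_mul, he, Polynomial.C_0]
  have e1 : (fun j => Polynomial.C (f (VV a b j) + f (WW j) * e) - Polynomial.X) =
      fun j => (Polynomial.C (f (VV a b j)) - Polynomial.X) +
        Polynomial.C e * (Polynomial.C.comp f) (WW j) := by
    funext j
    simp only [Polynomial.C_add, Polynomial.C_mul, RingHom.comp_apply]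
    ring
  rw [D_eq, e1, det_first (Polynomial.C.comp f) _ he' _ (fun j => by rw [VV_sh]), ← D_eq]
  have h6 := D_map f 15 (VV a b)
  have h7 := D_map f 15 (0 : Fin 15 → ℂ)
  rw [D_VV h1 h2, h7] at h6
  have h8 : (fun j : Fin 15 => f ((0 : Fin 15 → ℂ) j)) = 0 := by
    funext j
    simp
  rw [h8] at h6
  exact h6.symm

/-! ## The local ring -/

/-- The point of the variety. -/
def pt (a b : ℂ) (i : Fin (15 / 2)) : ℂ := VV a b (Fin.castLE (by norm_num) i)

/-- The homomorphism to the dual numbers. -/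
noncomputable def phi (a b : ℂ) : MvPolynomial (Fin (15 / 2)) ℂ →ₐ[ℂ] DualNumber ℂ :=
  MvPolynomial.aeval fun i => algebraMap ℂ (DualNumber ℂ) (pt a b i) +
    algebraMap ℂ (DualNumber ℂ) (WW (Fin.castLE (by norm_num) i)) * DualNumber.eps

lemma VV_rev (a b : ℂ) : ∀ j : Fin 15, VV a b j.rev = - VV a b j := by
  intro j
  have h5 : ∀ i : Fin 5, five a b i.rev = - five a b i := by
    intro i
    fin_cases i <;> simp [five, Fin.rev]
  have h : ∀ j : Fin 15, (ee.symm j.rev).2 = (ee.symm j).2.rev := by decide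
  unfold VV
  rw [h, h5]

lemma WW_rev : ∀ j : Fin 15, WW j.rev = - WW j := by
  intro j
  fin_cases j <;> simp [WW, Fin.rev]

lemma phi_U (a b : ℂ) (j : Fin 15) : phi a b (U 15 j) =
    algebraMap ℂ (DualNumber ℂ) (VV a b j) +
      algebraMap ℂ (DualNumber ℂ) (WW j) * DualNumber.eps := by
  unfold U
  by_cases h : (j : ℕ) < 15 / 2
  · rw [dif_pos h]
    simp only [phi, MvPolynomial.aeval_X, pt]
    rfl
  · rw [dif_neg h]
    by_cases h' : 15 - 1 - (j : ℕ) < 15 / 2
    · rw [dif_pos h']
      simp only [phi, map_neg, MvPolynomial.aeval_X, pt]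
      have h1 : (Fin.castLE (by norm_num) (⟨15 - 1 - (j : ℕ), h'⟩ : Fin (15 / 2)) : Fin 15) =
          j.rev := by
        apply Fin.ext
        simp [Fin.rev]
      rw [h1, VV_rev, WW_rev, map_neg, map_neg]
      ring
    · rw [dif_neg h']
      have h1 : j = 7 := by
        apply Fin.ext
        have := j.2
        change (j : ℕ) = 7
        omega
      rw [h1]
      have h2 : VV a b 7 = 0 := by
        have : (ee.symm 7).2 = 2 := by decide
        simp [VV, this, five]
      have h3 : WW 7 = 0 := by simp [WW]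
      rw [h2, h3]
      simp

lemma map_p {S : Type*} [CommRing S] (q k : ℕ) (f : MvPolynomial (Fin (q / 2)) ℂ →+* S)
    (h : D q (fun j => f (U q j)) = D q 0) : f (p q k) = 0 := by
  have h4 := D_map f q (U q)
  have h5 := D_map f q 0
  have h6 : (fun j : Fin q => f ((0 : Fin q → MvPolynomial (Fin (q / 2)) ℂ) j)) = 0 := by
    funext j
    exact map_zero f
  rw [h6] at h5
  rw [h, ← h5] at h4
  have h8 := congrArg (fun P => Polynomial.coeff P (q - 2 * k)) h4
  simp only [Polynomial.coeff_map] at h8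
  unfold p
  rw [map_mul, Polynomial.coeff_sub, map_sub, h8, sub_self, mul_zero]

lemma phi_I {a b : ℂ} (h1 : a ^ 2 + b ^ 2 = 0)
    (h2 : a ^ 2 * b ^ 2 + 2 * a ^ 2 + b ^ 2 - 2 * a * b = 0) :
    ∀ f ∈ I 15, (phi a b : MvPolynomial (Fin (15 / 2)) ℂ →+* DualNumber ℂ) f = 0 := by
  intro f hf
  have h3 : I 15 ≤ RingHom.ker (phi a b : MvPolynomial (Fin (15 / 2)) ℂ →+* DualNumber ℂ) := by
    unfold I
    rw [Ideal.span_le]
    rintro _ ⟨k, -, -, rfl⟩
    rw [SetLike.mem_coe, RingHom.mem_ker]
    apply map_p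
    have h7 : (fun j : Fin 15 => (phi a b : MvPolynomial (Fin (15 / 2)) ℂ →+* DualNumber ℂ)
        (U 15 j)) = fun j => algebraMap ℂ (DualNumber ℂ) (VV a b j) +
      algebraMap ℂ (DualNumber ℂ) (WW j) * DualNumber.eps := by
      funext j
      exact phi_U a b j
    rw [h7, D_dual h1 h2 _ _ DualNumber.eps_mul_eps]
  exact h3 hf

lemma fst_phi (a b : ℂ) (f : MvPolynomial (Fin (15 / 2)) ℂ) :
    TrivSqZeroExt.fst (phi a b f) = MvPolynomial.eval (pt a b) f := by
  have h : (TrivSqZeroExt.fstHom ℂ ℂ ℂ).comp (phi a b) = MvPolynomial.aeval (pt a b) := by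
    apply MvPolynomial.algHom_ext
    intro i
    simp [phi, TrivSqZeroExt.algebraMap_eq_inl]
  have h2 := congrArg (fun g : MvPolynomial (Fin (15 / 2)) ℂ →ₐ[ℂ] ℂ => g f) h
  exact h2

lemma exists_ab : ∃ a b : ℂ, a ≠ 0 ∧ a ^ 2 + b ^ 2 = 0 ∧
    a ^ 2 * b ^ 2 + 2 * a ^ 2 + b ^ 2 - 2 * a * b = 0 := by
  obtain ⟨a, ha⟩ := IsAlgClosed.exists_pow_nat_eq (1 - 2 * Complex.I) (n := 2) (by norm_num)
  have hI := Complex.I_sq
  refine ⟨a, Complex.I * a, ?_, ?_, ?_⟩
  · rintro rfl
    have := congrArg Complex.re ha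
    simp at this
  · linear_combination (a ^ 2) * hI
  · have e : (Complex.I * a) ^ 2 = - a ^ 2 := by linear_combination (a ^ 2) * hI
    rw [e]
    linear_combination (-a ^ 2) * ha

/-- **Part (a) of the question fails for `q = 15`.**  The variety `V(I')` has a nonzero point which
is not regular. -/
theorem result : ∃ a : Fin (15 / 2) → ℂ, a ∈ zeros 15 ∧ a ≠ 0 ∧ ¬ Regular 15 a := by
  obtain ⟨a, b, ha, h1, h2⟩ := exists_ab
  have hI := phi_I h1 h2
  refine ⟨pt a b, ?_, ?_, ?_⟩
  · intro f hf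
    rw [← fst_phi]
    have h3 : phi a b f = 0 := hI f hf
    rw [h3, TrivSqZeroExt.fst_zero]
  · intro h
    apply ha
    have h3 := congrFun h 0
    have h4 : (ee.symm 0).2 = 0 := by decide
    have h5 : pt a b 0 = five a b (ee.symm 0).2 := rfl
    rw [h5, h4] at h3
    simpa [five] using h3
  · intro hreg
    let Q := MvPolynomial (Fin (15 / 2)) ℂ ⧸ I 15
    let psi : Q →+* DualNumber ℂ := Ideal.Quotient.lift (I 15)
      (phi a b : MvPolynomial (Fin (15 / 2)) ℂ →+* DualNumber ℂ) hI
    have hpsi : ∀ g, psi (Ideal.Quotient.mk (I 15) g) = phi a b g := fun g => rfl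
    let S := (nonvanishing (pt a b)).map (Ideal.Quotient.mk (I 15))
    have hunit : ∀ y : S, IsUnit (psi y) := by
      rintro ⟨y, g, hg, rfl⟩
      change IsUnit (phi a b g)
      rw [TrivSqZeroExt.isUnit_iff_isUnit_fst, fst_phi]
      exact IsUnit.mk0 _ hg
    let th : LocalRing 15 (pt a b) →+* DualNumber ℂ :=
      IsLocalization.lift (M := S) (g := psi) hunit
    have hth : ∀ g, th (algebraMap Q (LocalRing 15 (pt a b)) (Ideal.Quotient.mk (I 15) g)) =
        phi a b g := by
      intro g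
      rw [← hpsi]
      exact IsLocalization.lift_eq hunit _
    have hne : (1 : LocalRing 15 (pt a b)) ≠ 0 := by
      intro h
      have h3 := congrArg th h
      rw [map_one, map_zero] at h3
      exact one_ne_zero h3
    unfold Regular at hreg
    rw [Module.rank_eq_one_iff_finrank_eq_one] at hreg
    rw [finrank_eq_one_iff_of_nonzero' _ hne] at hreg
    obtain ⟨c, hc⟩ := hreg (algebraMap Q (LocalRing 15 (pt a b))
      (Ideal.Quotient.mk (I 15) (MvPolynomial.X 0)))
    have h4 : c • (1 : LocalRing 15 (pt a b)) =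
        algebraMap Q (LocalRing 15 (pt a b)) (Ideal.Quotient.mk (I 15) (MvPolynomial.C c)) := by
      rw [Algebra.smul_def, mul_one, IsScalarTower.algebraMap_apply ℂ Q (LocalRing 15 (pt a b))]
      rfl
    rw [h4] at hc
    have h5 := congrArg th hc
    rw [hth, hth] at h5
    have h6 := congrArg TrivSqZeroExt.snd h5
    have h7 : WW (Fin.castLE (by norm_num) (0 : Fin (15 / 2))) = 1 := rfl
    unfold phi at h6
    rw [MvPolynomial.aeval_C, MvPolynomial.aeval_X, h7] at h6
    simp [TrivSqZeroExt.algebraMap_eq_inl] at h6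

end Pool.Agent.Results.MP_61df98_mp.SingularFifteen
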